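import Pool.Agent.Helper63.EQ.Defs
import Pool.Agent.Helper63.EW.MaxG
import Pool.Agent.Helper47.EG.UpW
import Pool.Agent.Helper99.MS.Contra

/-! Project EQ (edge weights, quantitative), block Z4: the near-level integral is bounded by the bound of the weighted
sums. -/

set_option autoImplicit false

namespace Pool.Agent.Helper47.EQ

open MeasureTheory Set Filter Topology
open Pool.Agent.Helper71.MR (gt gt_cont gt_nonneg gt_zero gt_le_one gt_integrable)
open Pool.Agent.Helper63.EW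
open Pool.Agent.Helper95.EW
open Pool.Agent.Helper47.EG (R_le_win)

variable {a : ℕ → ℝ} {w : ℝ → ℝ}

/-- the window mean of `1/√{x}`, explicit range -/
theorem fract_int' {δ : ℝ} (hδ0 : 0 < δ) (hδ : δ ≤ 1) {τ : ℝ} (hτ : Real.log (1 / δ) ≤ τ) :
    Integrable (fun s : ℝ => gt δ s * fr (Real.exp (τ + s))) ∧
      ∫ s : ℝ, gt δ s * fr (Real.exp (τ + s)) ≤ 12 * ∫ u : ℝ, gt δ u := by
  have he : 1 / δ ≤ Real.exp τ := by
    rwa [← Real.log_le_iff_le_exp (by positivity)]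
  set f : ℝ → ℝ := fun s => Real.exp (τ + s) with hf
  have hf' : ∀ s ∈ Icc (0 : ℝ) δ, HasDerivWithinAt f (Real.exp (τ + s)) (Icc 0 δ) s := fun s _ => by
    have h1 : HasDerivAt (fun s : ℝ => τ + s) 1 s := (hasDerivAt_id s).const_add τ
    have h2 := h1.exp
    rw [mul_one] at h2
    exact h2.hasDerivWithinAt
  have hinj : InjOn f (Icc (0 : ℝ) δ) := fun x _ y _ h => by
    have := Real.exp_injective h
    linarith
  have himg : f '' Icc (0 : ℝ) δ ⊆ Icc (Real.exp τ) (Real.exp τ + (⌈Real.exp (τ + δ) - Real.exp τ⌉₊ : ℕ)) := by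
    rintro _ ⟨s, hs, rfl⟩
    refine ⟨Real.exp_le_exp.2 (by linarith [hs.1]), ?_⟩
    have h1 : Real.exp (τ + s) ≤ Real.exp (τ + δ) := Real.exp_le_exp.2 (by linarith [hs.2])
    have h2 := Nat.le_ceil (Real.exp (τ + δ) - Real.exp τ)
    show Real.exp (τ + s) ≤ _
    linarith
  set n := ⌈Real.exp (τ + δ) - Real.exp τ⌉₊ with hn
  have hle : Real.exp τ ≤ Real.exp τ + (n : ℕ) := by
    have : (0 : ℝ) ≤ n := Nat.cast_nonneg _
    linarith
  have hi1 : IntegrableOn fr (Icc (Real.exp τ) (Real.exp τ + (n : ℕ))) := by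
    rw [integrableOn_Icc_iff_integrableOn_Ioc, ← intervalIntegrable_iff_integrableOn_Ioc_of_le hle]
    exact fr_int _ _
  have hi2 : IntegrableOn fr (f '' Icc (0 : ℝ) δ) := hi1.mono_set himg
  have hi3 : IntegrableOn (fun s => |Real.exp (τ + s)| • fr (f s)) (Icc (0 : ℝ) δ) :=
    (integrableOn_image_iff_integrableOn_abs_deriv_smul measurableSet_Icc hf' hinj fr).1 hi2
  have hval : ∫ s in Icc (0 : ℝ) δ, |Real.exp (τ + s)| • fr (f s) ≤ 2 * n := by
    rw [← integral_image_eq_integral_abs_deriv_smul measurableSet_Icc hf' hinj fr, ← fr_n (Real.exp τ) n,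
      intervalIntegral.integral_of_le hle, ← integral_Icc_eq_integral_Ioc]
    exact setIntegral_mono_set hi1 (Eventually.of_forall fun x => fr_nonneg x) himg.eventuallyLE
  -- the comparison
  have hbd : ∀ s, gt δ s * fr (Real.exp (τ + s)) ≤
      (Icc (0 : ℝ) δ).indicator (fun s => δ / 2 * Real.exp (-τ) * (|Real.exp (τ + s)| • fr (f s))) s := by
    intro s
    by_cases hs : s ∈ Icc (0 : ℝ) δ
    · rw [indicator_of_mem hs, abs_of_pos (Real.exp_pos _), smul_eq_mul]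
      have h1 : 1 ≤ Real.exp (-τ) * Real.exp (τ + s) := by
        rw [← Real.exp_add]
        exact Real.one_le_exp (by linarith [hs.1])
      have h2 := gt_le δ s hδ0.le
      have h3 := fr_nonneg (Real.exp (τ + s))
      calc gt δ s * fr (Real.exp (τ + s)) ≤ δ / 2 * fr (Real.exp (τ + s)) := mul_le_mul_of_nonneg_right h2 h3
        _ ≤ (Real.exp (-τ) * Real.exp (τ + s)) * (δ / 2 * fr (Real.exp (τ + s))) := by
            have : 0 ≤ δ / 2 * fr (Real.exp (τ + s)) := by positivity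
            nlinarith
        _ = _ := by rw [hf]; ring
    · rw [indicator_of_notMem hs, gt_zero, zero_mul]
      rw [mem_Icc, not_and_or, not_le, not_le] at hs
      exact hs.imp le_of_lt le_of_lt
  have hnn : ∀ s, 0 ≤ gt δ s * fr (Real.exp (τ + s)) := fun s => mul_nonneg (gt_nonneg _ _) (fr_nonneg _)
  have hi4 : Integrable ((Icc (0 : ℝ) δ).indicator
      (fun s => δ / 2 * Real.exp (-τ) * (|Real.exp (τ + s)| • fr (f s)))) :=
    (integrable_indicator_iff measurableSet_Icc).2 (Integrable.const_mul hi3 _)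
  have hi5 : Integrable (fun s : ℝ => gt δ s * fr (Real.exp (τ + s))) := by
    refine Integrable.mono' hi4 ?_ ?_
    · exact ((gt_cont δ).measurable.mul (fr_meas.comp (by fun_prop))).aestronglyMeasurable
    · filter_upwards with s
      rw [Real.norm_of_nonneg (hnn s)]
      exact hbd s
  refine ⟨hi5, ?_⟩
  have h1 : ∫ s : ℝ, gt δ s * fr (Real.exp (τ + s)) ≤ δ / 2 * Real.exp (-τ) * (2 * n) := by
    calc ∫ s : ℝ, gt δ s * fr (Real.exp (τ + s)) ≤ ∫ s, (Icc (0 : ℝ) δ).indicator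
          (fun s => δ / 2 * Real.exp (-τ) * (|Real.exp (τ + s)| • fr (f s))) s := integral_mono hi5 hi4 hbd
      _ = δ / 2 * Real.exp (-τ) * ∫ s in Icc (0 : ℝ) δ, (|Real.exp (τ + s)| • fr (f s)) := by
          rw [integral_indicator measurableSet_Icc, integral_const_mul]
      _ ≤ _ := mul_le_mul_of_nonneg_left hval (by positivity)
  have h2 : (n : ℝ) ≤ Real.exp (τ + δ) - Real.exp τ + 1 := by
    refine (Nat.ceil_lt_add_one ?_).le
    have := Real.exp_le_exp.2 (by linarith : τ ≤ τ + δ)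
    linarith
  have h3 : Real.exp (-τ) * n ≤ 3 * δ := by
    have h4 : Real.exp (-τ) * (Real.exp (τ + δ) - Real.exp τ + 1) = Real.exp δ - 1 + Real.exp (-τ) := by
      rw [mul_add, mul_sub, ← Real.exp_add, ← Real.exp_add]
      simp
    have h5 : Real.exp δ - 1 ≤ 2 * δ := by
      have h6 := (abs_le.1 (Real.abs_exp_sub_one_sub_id_le (x := δ) (by rw [abs_of_pos hδ0]; exact hδ))).2
      nlinarith
    have h7 : Real.exp (-τ) ≤ δ := by
      rw [Real.exp_neg]
      rw [inv_le_comm₀ (Real.exp_pos _) hδ0]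
      simpa using he
    calc Real.exp (-τ) * n ≤ Real.exp (-τ) * (Real.exp (τ + δ) - Real.exp τ + 1) :=
          mul_le_mul_of_nonneg_left h2 (Real.exp_pos _).le
      _ = Real.exp δ - 1 + Real.exp (-τ) := h4
      _ ≤ 3 * δ := by linarith
  have h8 := gt_int_ge hδ0.le
  calc _ ≤ δ / 2 * Real.exp (-τ) * (2 * n) := h1
    _ = δ * (Real.exp (-τ) * n) := by ring
    _ ≤ δ * (3 * δ) := mul_le_mul_of_nonneg_left h3 hδ0.le
    _ = 12 * (δ ^ 2 / 4) := by ring
    _ ≤ _ := by linarith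

/-- window means of the real sums, explicit range -/
theorem upper' (h0 : ∀ t ∈ Set.Ico (0 : ℝ) 1, 0 ≤ w t) (hw : MonotoneOn w (Set.Ico 0 1)) (ha : ∀ n, |a n| ≤ 1)
    {C : ℝ} (hC0 : 0 ≤ C) (hC : ∀ N : ℕ, 1 ≤ N → w (1 - 1 / N) ≤ C * √N) {K : ℝ} (hK : 0 ≤ K)
    {δ : ℝ} (hδ0 : 0 < δ) (hδ : δ ≤ 1) {τ : ℝ} (h1 : Real.log (1 / δ) ≤ τ) (h2 : 0 ≤ τ)
    (hS : ∀ N : ℕ, Real.exp τ ≤ N → N ≤ Real.exp (τ + 2) → S a w N ≤ K * √N) :
      ∫ s : ℝ, gt δ s * (Real.exp (-(τ + s) / 2) * R a w (Real.exp (τ + s))) ≤ (2 * K + 24 * C) * ∫ u : ℝ, gt δ u := by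
  obtain ⟨hi, hle⟩ := fract_int' hδ0 hδ h1
  have hI0 : 0 ≤ ∫ u : ℝ, gt δ u := integral_nonneg fun u => gt_nonneg _ _
  by_cases hint : Integrable (fun s : ℝ => gt δ s * (Real.exp (-(τ + s) / 2) * R a w (Real.exp (τ + s))))
  swap
  · rw [integral_undef hint]
    positivity
  calc ∫ s : ℝ, gt δ s * (Real.exp (-(τ + s) / 2) * R a w (Real.exp (τ + s)))
      ≤ ∫ s : ℝ, (2 * K * gt δ s + 2 * C * (gt δ s * fr (Real.exp (τ + s)))) := by
        refine integral_mono_ae hint (((gt_integrable δ).const_mul _).add (hi.const_mul _)) ?_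
        filter_upwards [fract_ae τ] with s hs
        rcases le_or_gt s 0 with hs0 | hs0
        · simp [gt_zero (δ := δ) (Or.inl hs0)]
        rcases le_or_gt δ s with hs1 | hs1
        · simp [gt_zero (δ := δ) (Or.inr hs1)]
        have h4 : 1 ≤ Real.exp (τ + s) := Real.one_le_exp (by linarith)
        have h5 : S a w (⌊Real.exp (τ + s)⌋₊ + 1) ≤ K * √((⌊Real.exp (τ + s)⌋₊ + 1 : ℕ) : ℝ) := by
          apply hS
          · have a1 : Real.exp τ ≤ Real.exp (τ + s) := Real.exp_le_exp.2 (by linarith)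
            have a2 := (Nat.lt_floor_add_one (Real.exp (τ + s))).le
            push_cast
            linarith
          · have a1 : Real.exp (τ + s) ≤ Real.exp (τ + 1) := Real.exp_le_exp.2 (by linarith)
            have a2 : (⌊Real.exp (τ + s)⌋₊ : ℝ) ≤ Real.exp (τ + s) := Nat.floor_le (Real.exp_pos _).le
            have a3 : Real.exp (τ + 2) = Real.exp (τ + 1) * Real.exp 1 := by
              rw [← Real.exp_add]; congr 1; ring
            have a4 : 1 ≤ Real.exp (τ + 1) := Real.one_le_exp (by linarith)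
            have a5 : 2 ≤ Real.exp 1 := by
              have := Real.add_one_le_exp (1:ℝ)
              linarith
            push_cast
            rw [a3]
            nlinarith
        have h6 := R_le_win h0 hw ha hC0 hC hK h4 h5 hs
        have h7 : Real.exp (-(τ + s) / 2) * R a w (Real.exp (τ + s)) = R a w (Real.exp (τ + s)) / √(Real.exp (τ + s)) := by
          rw [← Real.exp_half, neg_div, Real.exp_neg, mul_comm, ← div_eq_mul_inv]
        show gt δ s * (Real.exp (-(τ + s) / 2) * R a w (Real.exp (τ + s))) ≤ _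
        rw [h7]
        calc gt δ s * (R a w (Real.exp (τ + s)) / √(Real.exp (τ + s)))
            ≤ gt δ s * (2 * K + 2 * C * fr (Real.exp (τ + s))) := mul_le_mul_of_nonneg_left h6 (gt_nonneg _ _)
          _ = _ := by ring
    _ = 2 * K * (∫ s, gt δ s) + 2 * C * ∫ s, gt δ s * fr (Real.exp (τ + s)) := by
        rw [integral_add ((gt_integrable δ).const_mul _) (hi.const_mul _), integral_const_mul, integral_const_mul]
    _ ≤ 2 * K * (∫ s, gt δ s) + 2 * C * (12 * ∫ u : ℝ, gt δ u) := by gcongr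
    _ = _ := by ring

/-- Fubini over the levels, explicit range -/
theorem fub' (h0 : ∀ t ∈ Set.Ico (0 : ℝ) 1, 0 ≤ w t) (hw : MonotoneOn w (Set.Ico 0 1))
    (hub : ∀ B : ℝ, ∃ t ∈ Ico (0:ℝ) 1, B < w t) (ha : ∀ n, |a n| ≤ 1)
    {C : ℝ} (hC0 : 0 ≤ C) (hC : ∀ N : ℕ, 1 ≤ N → w (1 - 1 / N) ≤ C * √N) {δ : ℝ} (hδ0 : 0 < δ) (hδ : δ ≤ 1)
    {τ : ℝ} (hτ : Real.log (1 / δ) ≤ τ) :
      IntegrableOn (fun lam : ℝ => ∫ u : ℝ, gt δ u * (Real.exp (-(τ + u) / 2) *
        (AA a (Real.exp (τ + u)) - AA a (Ac w lam * Real.exp (τ + u))))) (Ioi 0) ∧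
      ∫ lam in Ioi (0 : ℝ), ∫ u : ℝ, gt δ u * (Real.exp (-(τ + u) / 2) *
        (AA a (Real.exp (τ + u)) - AA a (Ac w lam * Real.exp (τ + u)))) =
        ∫ u : ℝ, gt δ u * (Real.exp (-(τ + u) / 2) * R a w (Real.exp (τ + u))) := by
  obtain ⟨hfr, -⟩ := fract_int' hδ0 hδ hτ
  set F : ℝ × ℝ → ℝ := fun p => gt δ p.1 * (Real.exp (-(τ + p.1) / 2) *
    (AA a (Real.exp (τ + p.1)) - AA a (Ac w p.2 * Real.exp (τ + p.1)))) with hF
  have hFm : Measurable F := by
    have h1 : Measurable fun p : ℝ × ℝ => Ac w p.2 := (Ac_meas hub).comp measurable_snd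
    have h2 : Measurable fun p : ℝ × ℝ => Real.exp (τ + p.1) := by fun_prop
    have h3 : Measurable fun p : ℝ × ℝ => gt δ p.1 := (gt_cont δ).measurable.comp measurable_fst
    have h4 : Measurable fun p : ℝ × ℝ => Real.exp (-(τ + p.1) / 2) := by fun_prop
    exact h3.mul (h4.mul (((AA_meas a).comp h2).sub ((AA_meas a).comp (h1.mul h2))))
  -- the inner form
  have hform : ∀ u lam : ℝ, F (u, lam) = gt δ u * (Real.exp (-(τ + u) / 2) *
      ∑ n ∈ Finset.Icc 1 ⌊Real.exp (τ + u)⌋₊, a n * (if Ac w lam < n / Real.exp (τ + u) then 1 else 0)) := by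
    intro u lam
    rw [hF]
    simp only
    rw [AA_diff a (Real.exp_pos _) (Ac_nonneg w lam) (Ac_lt_one hub lam).le]
  have hint1 : ∀ᵐ u : ℝ ∂volume, Integrable (fun lam => F (u, lam)) (volume.restrict (Ioi 0)) := by
    filter_upwards [fract_ae τ] with u hu
    simp_rw [hform]
    exact ((lam_int hw hub a (Real.exp_pos _) hu).1.const_mul _).const_mul _
  have hval : ∀ᵐ u : ℝ ∂volume, ∫ lam in Ioi (0 : ℝ), F (u, lam) =
      gt δ u * (Real.exp (-(τ + u) / 2) * R a w (Real.exp (τ + u))) := by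
    filter_upwards [fract_ae τ, wl_ae hw h0 hub τ] with u hu hwl
    simp_rw [hform]
    rw [integral_const_mul, integral_const_mul, (lam_int hw hub a (Real.exp_pos _) hu).2, R]
    congr 2
    refine Finset.sum_congr rfl fun n hn => ?_
    rw [Finset.mem_Icc] at hn
    have h1 : (n : ℝ) ≤ Real.exp (τ + u) := (Nat.le_floor_iff (Real.exp_pos _).le).1 hn.2
    rw [hwl n hn.1 (lt_of_le_of_ne h1 fun h => hu (by rw [← h]; exact Int.fract_natCast n))]
  have hint2 : Integrable (fun u : ℝ => ∫ lam in Ioi (0 : ℝ), ‖F (u, lam)‖) := by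
    have hmaj : Integrable (fun u : ℝ => (2 * C * Real.exp (τ + 1)) * (gt δ u * fr (Real.exp (τ + u)))) :=
      hfr.const_mul _
    refine Integrable.mono' hmaj ?_ ?_
    · exact (hFm.norm.stronglyMeasurable.integral_prod_right').aestronglyMeasurable
    · filter_upwards [fract_ae τ] with u hu
      rw [Real.norm_of_nonneg (integral_nonneg fun _ => norm_nonneg _)]
      rcases le_or_gt u 0 with hs0 | hs0
      · have : ∀ lam, F (u, lam) = 0 := fun lam => by rw [hform, gt_zero (Or.inl hs0), zero_mul]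
        simp [this, gt_zero (δ := δ) (Or.inl hs0)]
      rcases le_or_gt δ u with hs1 | hs1
      · have : ∀ lam, F (u, lam) = 0 := fun lam => by rw [hform, gt_zero (Or.inr hs1), zero_mul]
        simp [this, gt_zero (δ := δ) (Or.inr hs1)]
      set x := Real.exp (τ + u) with hx
      have hx0 : 0 < x := Real.exp_pos _
      have hNx : ((⌊x⌋₊ : ℕ) : ℝ) < x := by
        refine lt_of_le_of_ne (Nat.floor_le hx0.le) fun h => hu ?_
        rw [← h]
        exact Int.fract_natCast _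
      have hfx : Int.fract x = x - (⌊x⌋₊ : ℕ) := by
        rw [Int.fract, ← natCast_floor_eq_intCast_floor hx0.le]
      have hle : ∀ lam : ℝ, ‖F (u, lam)‖ ≤ gt δ u * (Real.exp (-(τ + u) / 2) *
          ∑ n ∈ Finset.Icc 1 ⌊x⌋₊, (fun _ => (1 : ℝ)) n * (if Ac w lam < n / x then 1 else 0)) := by
        intro lam
        rw [hform, norm_mul, norm_mul, Real.norm_of_nonneg (gt_nonneg _ _), Real.norm_of_nonneg (Real.exp_pos _).le]
        refine mul_le_mul_of_nonneg_left (mul_le_mul_of_nonneg_left ?_ (Real.exp_pos _).le) (gt_nonneg _ _)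
        refine (norm_sum_le _ _).trans (Finset.sum_le_sum fun n _ => ?_)
        rw [norm_mul]
        split_ifs
        · simpa using ha n
        · simp
      have hI := lam_int hw hub (fun _ => (1 : ℝ)) hx0 hu
      have h1 : ∫ lam in Ioi (0 : ℝ), ‖F (u, lam)‖ ≤ gt δ u * (Real.exp (-(τ + u) / 2) *
          ∑ n ∈ Finset.Icc 1 ⌊x⌋₊, (fun _ => (1 : ℝ)) n * wl w (n / x)) := by
        rw [← hI.2, ← integral_const_mul, ← integral_const_mul]
        refine integral_mono_of_nonneg (Eventually.of_forall fun _ => norm_nonneg _)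
          ((hI.1.const_mul _).const_mul _) (Eventually.of_forall hle)
      refine h1.trans ?_
      have h2 : ∑ n ∈ Finset.Icc 1 ⌊x⌋₊, (fun _ => (1 : ℝ)) n * wl w (n / x) ≤ x * (2 * C * √x * fr x) := by
        calc ∑ n ∈ Finset.Icc 1 ⌊x⌋₊, (fun _ => (1 : ℝ)) n * wl w (n / x)
            ≤ ∑ n ∈ Finset.Icc 1 ⌊x⌋₊, (2 * C * √x * fr x) := by
              refine Finset.sum_le_sum fun n hn => ?_
              rw [Finset.mem_Icc] at hn
              rw [one_mul]
              have h3 : ((n : ℝ) / x) ∈ Ico (0 : ℝ) 1 := mem_domR hNx hn.2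
              have h4 : wl w (n / x) ≤ w (n / x) := real_le hw h0 hub h3.1 h3.2
              have h5 : w (n / x) ≤ w ((⌊x⌋₊ : ℕ) / x) := by
                refine hw h3 (mem_domR hNx le_rfl) ?_
                have : (n : ℝ) ≤ (⌊x⌋₊ : ℕ) := by exact_mod_cast hn.2
                gcongr
              have h6 := edge_le' hw hC hC0 hNx
              refine (h4.trans (h5.trans h6)).trans (le_of_eq ?_)
              rw [fr, hfx, div_eq_mul_inv]
          _ = (⌊x⌋₊ : ℝ) * (2 * C * √x * fr x) := by simp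
          _ ≤ x * (2 * C * √x * fr x) := by
              refine mul_le_mul_of_nonneg_right (Nat.floor_le hx0.le) ?_
              have := fr_nonneg x
              positivity
      have h3 : Real.exp (-(τ + u) / 2) * √x = 1 := by
        rw [hx, ← Real.exp_half, ← Real.exp_add, neg_div, neg_add_cancel, Real.exp_zero]
      have h4 : x ≤ Real.exp (τ + 1) := Real.exp_le_exp.2 (by linarith)
      calc gt δ u * (Real.exp (-(τ + u) / 2) * ∑ n ∈ Finset.Icc 1 ⌊x⌋₊, (fun _ => (1 : ℝ)) n * wl w (n / x))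
          ≤ gt δ u * (Real.exp (-(τ + u) / 2) * (x * (2 * C * √x * fr x))) := by
            refine mul_le_mul_of_nonneg_left (mul_le_mul_of_nonneg_left h2 (Real.exp_pos _).le) (gt_nonneg _ _)
        _ = (Real.exp (-(τ + u) / 2) * √x) * (x * (2 * C * (gt δ u * fr x))) := by ring
        _ = x * (2 * C * (gt δ u * fr x)) := by rw [h3, one_mul]
        _ ≤ Real.exp (τ + 1) * (2 * C * (gt δ u * fr x)) := by
            refine mul_le_mul_of_nonneg_right h4 ?_
            have := fr_nonneg x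
            have := gt_nonneg δ u
            positivity
        _ = (2 * C * Real.exp (τ + 1)) * (gt δ u * fr x) := by ring
  have hFi : Integrable F (volume.prod (volume.restrict (Ioi 0))) :=
    (integrable_prod_iff hFm.aestronglyMeasurable).2 ⟨hint1, hint2⟩
  constructor
  · exact hFi.integral_prod_right
  · have h1 := integral_integral_swap (f := fun u lam => F (u, lam)) hFi
    rw [← h1]
    exact integral_congr_ae hval

/-- the level integral, two-sided bound, explicit range -/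
theorem tot (hab : ∀ n, |a n| ≤ 1) (h0 : ∀ t ∈ Ico (0 : ℝ) 1, 0 ≤ w t) (hw : MonotoneOn w (Ico 0 1))
    (hub : ∀ B : ℝ, ∃ t ∈ Ico (0:ℝ) 1, B < w t) {Cw : ℝ} (hC0 : 0 ≤ Cw)
    (hC : ∀ N : ℕ, 1 ≤ N → w (1 - 1 / N) ≤ Cw * √N) {G : ℝ} (hG : 0 ≤ G) {δ : ℝ} (hδ0 : 0 < δ) (hδ : δ ≤ 1) {V : ℝ}
    (h1 : Real.log (1 / δ) ≤ V) (h2 : 0 ≤ V) (hS : ∀ N : ℕ, (N : ℝ) ≤ Real.exp (V + 2) → S a w N ≤ G * √(N : ℝ)) :
    IntegrableOn (Dl (ha a δ) w V) (Ioi 0) ∧
      ∫ lam in Ioi (0 : ℝ), Dl (ha a δ) w V lam ≤ (2 * G + 24 * Cw) * ∫ u : ℝ, gt δ u := by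
  have he : Dl (ha a δ) w V = fun lam : ℝ => ∫ u : ℝ, gt δ u * (Real.exp (-(V + u) / 2) *
        (AA a (Real.exp (V + u)) - AA a (Ac w lam * Real.exp (V + u)))) := funext fun lam => Dl_ha hab δ w V lam
  obtain ⟨h3, h4⟩ := fub' (a := a) h0 hw hub hab hC0 hC hδ0 hδ h1
  constructor
  · rw [he]; exact h3
  · rw [he, h4]
    exact upper' (a := a) h0 hw hab hC0 hC hG hδ0 hδ h1 h2 fun N _ h6 => hS N h6

theorem AA_neg (x : ℝ) : AA (fun n => -a n) x = -AA a x := by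
  simp [AA, Finset.sum_neg_distrib]

theorem ma_neg (t : ℝ) : ma (fun n => -a n) t = -ma a t := by
  rw [ma, ma, AA_neg]; ring

theorem ha_neg (δ y : ℝ) : ha (fun n => -a n) δ y = -ha a δ y := by
  rw [ha, ha, ← integral_neg]
  refine integral_congr_ae (Eventually.of_forall fun u => ?_)
  beta_reduce
  rw [ma_neg]; ring

theorem Dl_neg (δ y lam : ℝ) : Dl (ha (fun n => -a n) δ) w y lam = -Dl (ha a δ) w y lam := by
  unfold Dl
  rw [ha_neg, ha_neg]; ring

theorem S_neg (N : ℕ) : S (fun n => -a n) w N = -S a w N := by simp [S, Finset.sum_neg_distrib]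

/-- the level integral, two-sided bound, explicit range -/
theorem tot_abs (hab : ∀ n, |a n| ≤ 1) (h0 : ∀ t ∈ Ico (0 : ℝ) 1, 0 ≤ w t) (hw : MonotoneOn w (Ico 0 1))
    (hub : ∀ B : ℝ, ∃ t ∈ Ico (0:ℝ) 1, B < w t) {Cw : ℝ} (hC0 : 0 ≤ Cw)
    (hC : ∀ N : ℕ, 1 ≤ N → w (1 - 1 / N) ≤ Cw * √N) {G : ℝ} (hG : 0 ≤ G) {δ : ℝ} (hδ0 : 0 < δ) (hδ : δ ≤ 1) {V : ℝ}
    (h1 : Real.log (1 / δ) ≤ V) (h2 : 0 ≤ V) (hS : ∀ N : ℕ, (N : ℝ) ≤ Real.exp (V + 2) → |S a w N| ≤ G * √(N : ℝ)) :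
    IntegrableOn (Dl (ha a δ) w V) (Ioi 0) ∧
      |∫ lam in Ioi (0 : ℝ), Dl (ha a δ) w V lam| ≤ (2 * G + 24 * Cw) * ∫ u : ℝ, gt δ u := by
  obtain ⟨h3, h4⟩ := tot hab h0 hw hub hC0 hC hG hδ0 hδ h1 h2 fun N hN => (abs_le.1 (hS N hN)).2
  obtain ⟨-, h5⟩ := tot (a := fun n => -a n) (fun n => by rw [abs_neg]; exact hab n) h0 hw hub hC0 hC hG hδ0 hδ h1 h2
    fun N hN => by
      rw [S_neg]
      have := (abs_le.1 (hS N hN)).1
      linarith
  refine ⟨h3, abs_le.2 ⟨?_, h4⟩⟩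
  simp only [Dl_neg] at h5
  rw [integral_neg] at h5
  linarith

/-- the maximum principle up to `exp (V + 1)` -/
theorem ma_up (hab : ∀ n, |a n| ≤ 1) (h0 : ∀ t ∈ Ico (0 : ℝ) 1, 0 ≤ w t) (hw : MonotoneOn w (Ico 0 1))
    {t : ℝ} (ht : t ∈ Ico (0 : ℝ) 1) (hwt : w t ≠ 0) {Cw : ℝ}
    (hC : ∀ N : ℕ, 1 ≤ N → w (1 - 1 / N) ≤ Cw * √N) {G : ℝ} {V : ℝ}
    (hS : ∀ N : ℕ, (N : ℝ) ≤ Real.exp (V + 1) → S a w N ≤ G * √(N : ℝ)) {x : ℝ} (hx : x ≤ V + 1) :
    ma a x ≤ max ((G + Cw) / ((1 - √t) * w t)) (√(⌈2 / (1 - t)⌉₊ : ℝ)) := by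
  set K' := max ((G + Cw) / ((1 - √t) * w t)) (√(⌈2 / (1 - t)⌉₊ : ℝ)) with hK'
  have hK0 : 0 ≤ K' := le_max_of_le_right (Real.sqrt_nonneg _)
  have h1 := max_trunc h0 hw hab ht hwt hC (K := G) (N := ⌊Real.exp x⌋₊) (fun n hn => hS n (by
    have h3 : (n : ℝ) ≤ (⌊Real.exp x⌋₊ : ℕ) := by exact_mod_cast hn
    exact (h3.trans (Nat.floor_le (Real.exp_pos _).le)).trans (Real.exp_le_exp.2 hx))) ⌊Real.exp x⌋₊ le_rfl
  have h2 : √((⌊Real.exp x⌋₊ : ℕ) : ℝ) ≤ √(Real.exp x) := Real.sqrt_le_sqrt (Nat.floor_le (Real.exp_pos _).le)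
  unfold ma AA
  calc (∑ n ∈ Finset.Icc 1 ⌊Real.exp x⌋₊, a n) * Real.exp (-x / 2)
      ≤ (K' * √(Real.exp x)) * Real.exp (-x / 2) :=
        mul_le_mul_of_nonneg_right (h1.trans (mul_le_mul_of_nonneg_left h2 hK0)) (Real.exp_pos _).le
    _ = K' := by
        rw [← Real.exp_half, mul_assoc, ← Real.exp_add, neg_div, add_neg_cancel, Real.exp_zero, mul_one]

/-- the smoothed function, from a bound to the left of `V + 1` -/
theorem ha_up {K V : ℝ} (hK : ∀ x ≤ V + 1, |ma a x| ≤ K) {δ : ℝ} (hδ : δ ≤ 1) {y : ℝ} (hy : y ≤ V) :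
    |ha a δ y| ≤ K * ∫ u, gt δ u := by
  unfold ha
  rw [← integral_const_mul, ← Real.norm_eq_abs]
  refine norm_integral_le_of_norm_le ((gt_integrable δ).const_mul _) (Eventually.of_forall fun u => ?_)
  rw [norm_mul, Real.norm_of_nonneg (gt_nonneg _ _), Real.norm_eq_abs]
  rcases le_or_gt δ u with h' | h'
  · simp [gt_zero (δ := δ) (Or.inr h')]
  exact mul_le_mul_of_nonneg_right (hK _ (by linarith)) (gt_nonneg δ u)

/-- the far levels -/
theorem far_abs {H : ℝ → ℝ} {V M : ℝ} (hH : ∀ x ≤ V, |H x| ≤ M) (h0 : ∀ t ∈ Ico (0:ℝ) 1, 0 ≤ w t)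
    (hw : MonotoneOn w (Ico 0 1)) (hub : ∀ B : ℝ, ∃ t ∈ Ico (0:ℝ) 1, B < w t) :
    |∫ lam in Fr w, Dl H w V lam| ≤ 2 * M * w (Real.exp (-(1 / 2))) := by
  have hM : 0 ≤ M := (abs_nonneg _).trans (hH V le_rfl)
  have h1 : ∀ lam ∈ Fr w, ‖Dl H w V lam‖ ≤ 2 * M := by
    intro lam _
    have hs0 := Real.sqrt_nonneg (Ac w lam)
    have hs1 : √(Ac w lam) ≤ 1 := Real.sqrt_le_one.mpr (Ac_lt_one hub lam).le
    have hl : Real.log (Ac w lam) ≤ 0 := Real.log_nonpos (Ac_nonneg w lam) (Ac_lt_one hub lam).le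
    have h2 := hH V le_rfl
    have h3 := hH (V + Real.log (Ac w lam)) (by linarith)
    rw [Real.norm_eq_abs]
    unfold Dl
    calc |H V - √(Ac w lam) * H (V + Real.log (Ac w lam))|
        ≤ |H V| + |√(Ac w lam) * H (V + Real.log (Ac w lam))| := abs_sub _ _
      _ ≤ M + 1 * M := by
          refine add_le_add h2 ?_
          rw [abs_mul, abs_of_nonneg hs0]
          exact mul_le_mul hs1 h3 (abs_nonneg _) zero_le_one
      _ = 2 * M := by ring
  have h2 := norm_setIntegral_le_of_norm_le_const (lt_top_iff_ne_top.2 (Fr_fin hw hub)) h1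
  rw [Real.norm_eq_abs] at h2
  exact h2.trans (mul_le_mul_of_nonneg_left (Fr_vol hw h0 hub) (by positivity))

end Pool.Agent.Helper47.EQ

namespace Pool.Agent.Helper63.EQ

open MeasureTheory Set Filter Topology
open Pool.Agent.Helper95.EW (Ac Dl Nr Fr Nr_union_Fr Nr_disj_Fr Fr_meas half_mem)
open Pool.Agent.Helper71.MR (gt gt_nonneg)
open Pool.Agent.Helper63.EW (ha ma AA S)
open Pool.Agent.Helper99.MS (mr abs_mr)

variable {w : ℝ → ℝ} {Cw : ℝ}

/-- **Z4**: the near-level integral from the bound of the weighted sums up to `exp (V + 2)` -/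
theorem Zn_up (h : Adm w Cw) : ∃ C : ℝ, 0 ≤ C ∧ ∀ δ : ℝ, 0 < δ → δ ≤ 1 → ∃ τ₀ : ℝ, τ₀ ≤ 10 + 1 / δ ∧ ∀ V : ℝ, τ₀ ≤ V →
    ∀ G : ℝ, 0 ≤ G → (∀ N : ℕ, (N : ℝ) ≤ Real.exp (V + 2) → |S mr w N| ≤ G * √(N : ℝ)) →
      |Zn mr w δ V| ≤ C * (G + 1) * ∫ u : ℝ, gt δ u := by
  obtain ⟨h0, hw, hub, hC⟩ := h
  have hab : ∀ n, |mr n| ≤ 1 := abs_mr
  have hC0 : 0 ≤ Cw := by
    have := (h0 0 ⟨le_rfl, one_pos⟩).trans (by simpa using hC 1 le_rfl)
    exact this
  obtain ⟨t, ht, hwt'⟩ := hub 0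
  have hwt : w t ≠ 0 := hwt'.ne'
  have hst : √t < 1 := by
    rw [Real.sqrt_lt' one_pos]
    simpa using ht.2
  have hc : 0 < (1 - √t) * w t := mul_pos (by linarith) hwt'
  have hwh := h0 _ half_mem
  set Wh := w (Real.exp (-(1 / 2))) with hWh
  set c := (1 - √t) * w t with hcdef
  set n₁ := √(⌈2 / (1 - t)⌉₊ : ℝ) with hn₁
  have hn₁0 : 0 ≤ n₁ := Real.sqrt_nonneg _
  have hC'0 : 0 ≤ (1 + Cw) / c + n₁ := by positivity
  refine ⟨(2 + 24 * Cw) + 2 * Wh * ((1 + Cw) / c + n₁), by positivity, fun δ hδ0 hδ =>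
    ⟨max (Real.log (1 / δ)) 0, ?_, fun V hV G hG hS => ?_⟩⟩
  · have h1 : 0 < 1 / δ := by positivity
    have h2 := Real.log_le_sub_one_of_pos h1
    exact max_le (by linarith) (by linarith)
  have h1 : Real.log (1 / δ) ≤ V := (le_max_left _ _).trans hV
  have h2 : 0 ≤ V := (le_max_right _ _).trans hV
  obtain ⟨hi, hT⟩ := Helper47.EQ.tot_abs hab h0 hw hub hC0 hC hG hδ0 hδ h1 h2 hS
  have hI : 0 ≤ ∫ u, gt δ u := integral_nonneg (gt_nonneg δ)
  set I := ∫ u, gt δ u with hIdef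
  -- the maximum principle
  have hK : ∀ x ≤ V + 1, |ma mr x| ≤ ((1 + Cw) / c + n₁) * (G + 1) := by
    intro x hx
    have hle : max ((G + Cw) / c) n₁ ≤ ((1 + Cw) / c + n₁) * (G + 1) := by
      have e1 : (G + Cw) / c ≤ (1 + Cw) / c * (G + 1) := by
        rw [div_mul_eq_mul_div, div_le_div_iff_of_pos_right hc]
        nlinarith
      have e2 : n₁ ≤ n₁ * (G + 1) := by nlinarith
      have e3 : 0 ≤ (1 + Cw) / c * (G + 1) := by positivity
      rw [add_mul]
      exact max_le (by nlinarith) (by linarith)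
    have e4 : ∀ N : ℕ, (N : ℝ) ≤ Real.exp (V + 1) → |S mr w N| ≤ G * √(N : ℝ) := fun N hN =>
      hS N (hN.trans (Real.exp_le_exp.2 (by linarith)))
    have e5 := Helper47.EQ.ma_up hab h0 hw ht hwt hC (G := G) (V := V) (fun N hN => (abs_le.1 (e4 N hN)).2) hx
    have e6 := Helper47.EQ.ma_up (a := fun n => -mr n) (fun n => by rw [abs_neg]; exact hab n) h0 hw ht hwt hC (G := G)
      (V := V) (fun N hN => by
        rw [Helper47.EQ.S_neg]
        have := (abs_le.1 (e4 N hN)).1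
        linarith) hx
    rw [Helper47.EQ.ma_neg] at e6
    exact abs_le.2 ⟨by linarith, e5.trans hle⟩
  have hH : ∀ x ≤ V, |ha mr δ x| ≤ ((1 + Cw) / c + n₁) * (G + 1) * I := fun x hx =>
    Helper47.EQ.ha_up hK hδ hx
  have hF := Helper47.EQ.far_abs (w := w) hH h0 hw hub
  -- splitting
  have hsplit : ∫ lam in Ioi (0 : ℝ), Dl (ha mr δ) w V lam =
      (∫ lam in Nr w, Dl (ha mr δ) w V lam) + ∫ lam in Fr w, Dl (ha mr δ) w V lam := by
    have i1 : IntegrableOn (Dl (ha mr δ) w V) (Nr w) := hi.mono_set fun _ hl => hl.1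
    have i2 : IntegrableOn (Dl (ha mr δ) w V) (Fr w) := hi.mono_set fun _ hl => hl.1
    rw [Nr_union_Fr w, setIntegral_union (Nr_disj_Fr w) (Fr_meas hub) i1 i2]
  rw [hsplit] at hT
  unfold Zn
  rw [abs_le] at hT hF ⊢
  have e7 : (2 * G + 24 * Cw) * I ≤ (2 + 24 * Cw) * (G + 1) * I := by
    refine mul_le_mul_of_nonneg_right ?_ hI
    nlinarith
  have e8 : ((2 + 24 * Cw) + 2 * Wh * ((1 + Cw) / c + n₁)) * (G + 1) * I =
      (2 + 24 * Cw) * (G + 1) * I + 2 * (((1 + Cw) / c + n₁) * (G + 1) * I) * Wh := by ring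
  rw [e8]
  constructor
  · linarith [hT.1, hF.2]
  · linarith [hT.2, hF.1]

end Pool.Agent.Helper63.EQ
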